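import Mathlib
import Pool.Agent.H964.QC.Stm

set_option autoImplicit false

open Finset

namespace Pool.Agent.H349.QC

open Pool.Agent.H964.QC

/-! ## Sums -/

theorem icc_eq (T : ℕ) : Finset.Icc 1 T = Finset.Ioc 0 T := by
  ext m
  simp only [Finset.mem_Icc, Finset.mem_Ioc]
  omega

/-- telescoping upper bound -/
theorem tele (f F : ℕ → ℝ) {a b : ℕ} (hab : a ≤ b)
    (h : ∀ m, a ≤ m → m < b → f (m + 1) ≤ F (m + 1) - F m) :
    ∑ m ∈ Finset.Ioc a b, f m ≤ F b - F a := by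
  induction b, hab using Nat.le_induction with
  | base => simp
  | succ n hn ih =>
    rw [Finset.sum_Ioc_succ_top hn]
    have h1 := ih (fun m hm hm' => h m hm (by omega))
    have h2 := h n hn (by omega)
    linarith

theorem split_le (f : ℕ → ℝ) (hf : ∀ m, 0 ≤ f m) (s T : ℕ) :
    ∑ m ∈ Finset.Ioc 0 T, f m ≤ ∑ m ∈ Finset.Ioc 0 s, f m + ∑ m ∈ Finset.Ioc s T, f m := by
  rcases le_total T s with h | h
  · have h1 : ∑ m ∈ Finset.Ioc 0 T, f m ≤ ∑ m ∈ Finset.Ioc 0 s, f m :=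
      Finset.sum_le_sum_of_subset_of_nonneg (Finset.Ioc_subset_Ioc_right h) (fun m _ _ => hf m)
    have h2 : 0 ≤ ∑ m ∈ Finset.Ioc s T, f m := Finset.sum_nonneg (fun m _ => hf m)
    linarith
  · rw [Finset.sum_Ioc_consecutive f (Nat.zero_le s) h]

theorem RR_sub {a b : ℕ} (hab : a ≤ b) : RR b - RR a = ∑ m ∈ Finset.Ioc a b, rr m := by
  unfold RR
  rw [icc_eq, icc_eq, ← Finset.sum_Ioc_consecutive rr (Nat.zero_le a) hab]
  ring

theorem RR_mono (hpos : ∀ n, 0 < rr n) {a b : ℕ} (hab : a ≤ b) : RR a ≤ RR b := by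
  have h1 := RR_sub hab
  have h2 : 0 ≤ ∑ m ∈ Finset.Ioc a b, rr m := Finset.sum_nonneg (fun m _ => (hpos m).le)
  linarith

/-- fourth root -/
noncomputable def q (x : ℝ) : ℝ := Real.sqrt (Real.sqrt x)

theorem q_sq (x : ℝ) : q x ^ 2 = Real.sqrt x := Real.sq_sqrt (Real.sqrt_nonneg x)

theorem q_four {x : ℝ} (hx : 0 ≤ x) : q x ^ 4 = x := by
  have h : q x ^ 4 = (q x ^ 2) ^ 2 := by ring
  rw [h, q_sq, Real.sq_sqrt hx]

theorem q_pos {x : ℝ} (hx : 0 < x) : 0 < q x := Real.sqrt_pos.2 (Real.sqrt_pos.2 hx)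

theorem q_nonneg (x : ℝ) : 0 ≤ q x := Real.sqrt_nonneg _

theorem q_mono {x y : ℝ} (h : x ≤ y) : q x ≤ q y := Real.sqrt_le_sqrt (Real.sqrt_le_sqrt h)

theorem q_div {x y : ℝ} (hx : 0 ≤ x) : q (x / y) = q x / q y := by
  unfold q
  rw [Real.sqrt_div hx, Real.sqrt_div (Real.sqrt_nonneg x)]

theorem rpow_quarter {x : ℝ} (hx : 0 ≤ x) : x ^ (1 / 4 : ℝ) = q x := by
  unfold q
  rw [Real.sqrt_eq_rpow, Real.sqrt_eq_rpow, ← Real.rpow_mul hx]
  norm_num

/-- `1/√(m+1) ≤ 2 (√(m+1) - √m)` -/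
theorem step_half (m : ℕ) :
    1 / Real.sqrt ((m : ℝ) + 1) ≤ 2 * (Real.sqrt ((m : ℝ) + 1) - Real.sqrt m) := by
  have hm : (0 : ℝ) ≤ m := Nat.cast_nonneg m
  set a := Real.sqrt ((m : ℝ) + 1) with ha
  set b := Real.sqrt (m : ℝ) with hb
  have ha0 : 0 < a := Real.sqrt_pos.2 (by linarith)
  have hb0 : 0 ≤ b := Real.sqrt_nonneg _
  have ha2 : a ^ 2 = m + 1 := Real.sq_sqrt (by linarith)
  have hb2 : b ^ 2 = m := Real.sq_sqrt hm
  rw [div_le_iff₀ ha0]
  nlinarith [sq_nonneg (a - b)]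

/-- `(m+1)^(-3/4) ≤ 4 ((m+1)^(1/4) - m^(1/4))` -/
theorem step_q (m : ℕ) : 1 / q ((m : ℝ) + 1) ^ 3 ≤ 4 * (q ((m : ℝ) + 1) - q m) := by
  have hm : (0 : ℝ) ≤ m := Nat.cast_nonneg m
  set a := q ((m : ℝ) + 1) with ha
  set b := q (m : ℝ) with hb
  have ha0 : 0 < a := q_pos (by linarith)
  have hb0 : 0 ≤ b := q_nonneg _
  have hab : b ≤ a := q_mono (by linarith)
  have ha4 : a ^ 4 = m + 1 := q_four (by linarith)
  have hb4 : b ^ 4 = m := q_four hm
  rw [div_le_iff₀ (by positivity)]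
  have h1 : (a - b) * ((a + b) * (a ^ 2 + b ^ 2)) = 1 := by
    have : (a - b) * ((a + b) * (a ^ 2 + b ^ 2)) = a ^ 4 - b ^ 4 := by ring
    rw [this, ha4, hb4]; ring
  have h2 : (a + b) * (a ^ 2 + b ^ 2) ≤ 4 * a ^ 3 := by
    have e1 : b ^ 2 ≤ a ^ 2 := by nlinarith
    have e2 : a + b ≤ 2 * a := by linarith
    calc (a + b) * (a ^ 2 + b ^ 2) ≤ (2 * a) * (a ^ 2 + a ^ 2) := by gcongr
      _ = 4 * a ^ 3 := by ring
  have h3 : 0 ≤ a - b := by linarith
  calc (1 : ℝ) = (a - b) * ((a + b) * (a ^ 2 + b ^ 2)) := h1.symm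
    _ ≤ (a - b) * (4 * a ^ 3) := by gcongr
    _ = 4 * (a - b) * a ^ 3 := by ring

/-- `m^(-5/4) ≤ 10 (m^(-1/4) - (m+1)^(-1/4))` -/
theorem step_q5 {m : ℕ} (hm1 : 1 ≤ m) :
    1 / q (m : ℝ) ^ 5 ≤ 10 * (1 / q (m : ℝ) - 1 / q ((m : ℝ) + 1)) := by
  have hm : (1 : ℝ) ≤ m := by exact_mod_cast hm1
  set b := q ((m : ℝ) + 1) with hb
  set a := q (m : ℝ) with ha
  have ha0 : 0 < a := q_pos (by linarith)
  have hb0 : 0 < b := q_pos (by linarith)
  have hab : a ≤ b := q_mono (by linarith)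
  have hb4 : b ^ 4 = m + 1 := q_four (by linarith)
  have ha4 : a ^ 4 = m := q_four (by linarith)
  have hb12 : b ≤ 6 / 5 * a := by
    by_contra hcon
    push Not at hcon
    have h1 : (6 / 5 * a) ^ 4 < b ^ 4 := pow_lt_pow_left₀ hcon (by positivity) (by norm_num)
    rw [mul_pow, ha4, hb4] at h1
    norm_num at h1
    linarith
  have h1 : (b - a) * ((b + a) * (b ^ 2 + a ^ 2)) = 1 := by
    have : (b - a) * ((b + a) * (b ^ 2 + a ^ 2)) = b ^ 4 - a ^ 4 := by ring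
    rw [this, ha4, hb4]; ring
  have h2 : b * ((b + a) * (b ^ 2 + a ^ 2)) ≤ 10 * a ^ 4 := by
    have e1 : b ^ 2 ≤ (6 / 5 * a) ^ 2 := by gcongr
    calc b * ((b + a) * (b ^ 2 + a ^ 2)) ≤ (6 / 5 * a) * ((6 / 5 * a + a) * ((6 / 5 * a) ^ 2 + a ^ 2)) := by
          gcongr
      _ = (6 / 5 * (11 / 5) * (61 / 25)) * a ^ 4 := by ring
      _ ≤ 10 * a ^ 4 := by
          have : 0 ≤ a ^ 4 := by positivity
          nlinarith
  have h3 : 1 / a - 1 / b = (b - a) / (a * b) := by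
    field_simp
  rw [h3, ← mul_div_assoc, div_le_div_iff₀ (by positivity) (by positivity)]
  have h4 : 0 ≤ b - a := by linarith
  have h5 : b * 1 ≤ (b - a) * (10 * a ^ 4) := by
    calc b * 1 = b * ((b - a) * ((b + a) * (b ^ 2 + a ^ 2))) := by rw [h1]
      _ = (b - a) * (b * ((b + a) * (b ^ 2 + a ^ 2))) := by ring
      _ ≤ (b - a) * (10 * a ^ 4) := by gcongr
  calc 1 * (a * b) = a * (b * 1) := by ring
    _ ≤ a * ((b - a) * (10 * a ^ 4)) := by gcongr
    _ = 10 * (b - a) * a ^ 5 := by ring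

/-- `1/(√m m) ≤ 4 (1/√m - 1/√(m+1))` -/
theorem step_three_half {m : ℕ} (hm1 : 1 ≤ m) :
    1 / (Real.sqrt (m : ℝ) * m) ≤ 4 * (1 / Real.sqrt (m : ℝ) - 1 / Real.sqrt ((m : ℝ) + 1)) := by
  have hm : (1 : ℝ) ≤ m := by exact_mod_cast hm1
  set b := Real.sqrt ((m : ℝ) + 1) with hb
  set a := Real.sqrt (m : ℝ) with ha
  have ha0 : 0 < a := Real.sqrt_pos.2 (by linarith)
  have hb0 : 0 < b := Real.sqrt_pos.2 (by linarith)
  have hb2 : b ^ 2 = m + 1 := Real.sq_sqrt (by linarith)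
  have ha2 : a ^ 2 = m := Real.sq_sqrt (by linarith)
  have hab : a ≤ b := Real.sqrt_le_sqrt (by linarith)
  have hb12 : b ≤ 3 / 2 * a := by
    by_contra hcon
    push Not at hcon
    have h1 : (3 / 2 * a) ^ 2 < b ^ 2 := pow_lt_pow_left₀ hcon (by positivity) (by norm_num)
    rw [mul_pow, ha2, hb2] at h1
    norm_num at h1
    linarith
  have h1 : (b - a) * (b + a) = 1 := by
    have : (b - a) * (b + a) = b ^ 2 - a ^ 2 := by ring
    rw [this, ha2, hb2]; ring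
  have h3 : 1 / a - 1 / b = (b - a) / (a * b) := by
    field_simp
  rw [h3, ← mul_div_assoc, ← ha2, div_le_div_iff₀ (by positivity) (by positivity)]
  have h2 : b * (b + a) ≤ 4 * a ^ 2 := by
    calc b * (b + a) ≤ (3 / 2 * a) * (3 / 2 * a + a) := by gcongr
      _ = 15 / 4 * a ^ 2 := by ring
      _ ≤ 4 * a ^ 2 := by nlinarith [sq_nonneg a]
  have h4 : 0 ≤ b - a := by linarith
  calc 1 * (a * b) = a * (b * ((b - a) * (b + a))) := by rw [h1]; ring
    _ = a * ((b - a) * (b * (b + a))) := by ring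
    _ ≤ a * ((b - a) * (4 * a ^ 2)) := by gcongr
    _ = 4 * (b - a) * (a * a ^ 2) := by ring

/-! ## The cut-off -/

/-- facts about `s = ⌊t/B²⌋` -/
theorem cutoff {t : ℕ} {B : ℝ} (ht : 1 ≤ t) (hB : 1 ≤ B) :
    ∃ s : ℕ, s ≤ t ∧ (s : ℝ) ≤ t / B ^ 2 ∧ (t : ℝ) / B ^ 2 < s + 1 := by
  have ht' : (1 : ℝ) ≤ t := by exact_mod_cast ht
  have hB2 : (1 : ℝ) ≤ B ^ 2 := by nlinarith
  have h0 : (0 : ℝ) ≤ t / B ^ 2 := by positivity
  refine ⟨⌊(t : ℝ) / B ^ 2⌋₊, ?_, Nat.floor_le h0, Nat.lt_floor_add_one _⟩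
  have h1 : (t : ℝ) / B ^ 2 ≤ t := div_le_self (by linarith) hB2
  calc ⌊(t : ℝ) / B ^ 2⌋₊ ≤ ⌊(t : ℝ)⌋₊ := Nat.floor_le_floor h1
    _ = t := Nat.floor_natCast t

theorem RR_cut (hRR : S_RR) {t s : ℕ} {B : ℝ} (ht : 1 ≤ t) (hB : 1 ≤ B) (hst : s ≤ t)
    (hs : (t : ℝ) / B ^ 2 < s + 1) : RR t - RR s ≤ 1 + Real.log B := by
  obtain ⟨-, -, -, -, h5, -, h7⟩ := hRR
  have ht' : (1 : ℝ) ≤ t := by exact_mod_cast ht
  have hB2 : (0 : ℝ) < B ^ 2 := by positivity
  have hlogB : Real.log (B ^ 2) = 2 * Real.log B := by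
    rw [Real.log_pow]; norm_num
  rcases Nat.eq_zero_or_pos s with h0 | h0
  · subst h0
    have h1 := h7 t ht
    have h2 : (t : ℝ) ≤ B ^ 2 := by
      rw [Nat.cast_zero, zero_add, div_lt_one hB2] at hs
      exact hs.le
    have h3 : Real.log t ≤ Real.log (B ^ 2) := Real.log_le_log (by linarith) h2
    have h4 : RR 0 = 0 := by simp [RR]
    rw [h4]
    rw [hlogB] at h3
    linarith
  · have h1 := h5 s t h0 hst
    have hs' : (1 : ℝ) ≤ s := by exact_mod_cast h0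
    have h2 : (t : ℝ) / s ≤ 2 * B ^ 2 := by
      rw [div_le_iff₀ (by linarith)]
      rw [div_lt_iff₀ hB2] at hs
      nlinarith
    have h3 : Real.log ((t : ℝ) / s) ≤ Real.log (2 * B ^ 2) := Real.log_le_log (by positivity) h2
    rw [Real.log_mul (by norm_num) (by positivity), hlogB] at h3
    have h4 : Real.log 2 ≤ 1 := by
      have := Real.log_two_lt_d9
      linarith
    linarith

/-- `√(t/B²) = √t / B` -/
theorem sqrt_cut {t B : ℝ} (ht : 0 ≤ t) (hB : 0 ≤ B) : Real.sqrt (t / B ^ 2) = Real.sqrt t / B := by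
  rw [Real.sqrt_div ht, Real.sqrt_sq hB]

theorem q_cut {t B : ℝ} (ht : 0 ≤ t) (hB : 0 ≤ B) : q (t / B ^ 2) = q t / Real.sqrt B := by
  unfold q
  rw [sqrt_cut ht hB, Real.sqrt_div (Real.sqrt_nonneg t)]

/-! ## The four estimates for a sequence -/

/-- (1) -/
theorem core1 (hRR : S_RR) {t T N0 : ℕ} {B : ℝ} (o : ℕ → ℝ) (ht : 1 ≤ t) (hB : 1 ≤ B)
    (hN : t + T ≤ N0) (h0 : ∀ m, 0 ≤ o m) (h1 : ∀ m, m ≤ N0 → o m ≤ rr m)
    (h2 : ∀ m : ℕ, 1 ≤ m → m ≤ t → o m ≤ B / Real.sqrt ((m : ℝ) * t)) :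
    ∑ m ∈ Finset.Icc 1 T, o m ≤ RR (t + T) - RR t + 3 * (1 + Real.log B) := by
  obtain ⟨s, hst, hs1, hs2⟩ := cutoff ht hB
  have ht' : (1 : ℝ) ≤ t := by exact_mod_cast ht
  have hlog : 0 ≤ Real.log B := Real.log_nonneg hB
  have hts : 0 < Real.sqrt (t : ℝ) := Real.sqrt_pos.2 (by linarith)
  have e1 : ∑ m ∈ Finset.Ioc 0 s, o m ≤ 2 := by
    have e2 : ∑ m ∈ Finset.Ioc 0 s, o m ≤
        (fun m : ℕ => 2 * B / Real.sqrt t * Real.sqrt (m : ℝ)) s -
        (fun m : ℕ => 2 * B / Real.sqrt t * Real.sqrt (m : ℝ)) 0 := by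
      refine tele o (fun m : ℕ => 2 * B / Real.sqrt t * Real.sqrt (m : ℝ)) (Nat.zero_le s)
        fun m _ hm => ?_
      refine (h2 (m + 1) (by omega) (by omega)).trans ?_
      have e3 := step_half m
      push_cast
      rw [Real.sqrt_mul (by positivity)]
      have e4 : B / (Real.sqrt ((m : ℝ) + 1) * Real.sqrt t) =
          B / Real.sqrt t * (1 / Real.sqrt ((m : ℝ) + 1)) := by
        field_simp
      rw [e4]
      calc B / Real.sqrt t * (1 / Real.sqrt ((m : ℝ) + 1)) ≤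
          B / Real.sqrt t * (2 * (Real.sqrt ((m : ℝ) + 1) - Real.sqrt m)) := by gcongr
        _ = _ := by ring
    refine e2.trans ?_
    simp only [Nat.cast_zero, Real.sqrt_zero, mul_zero, sub_zero]
    have e3 : Real.sqrt (s : ℝ) ≤ Real.sqrt t / B := by
      rw [← sqrt_cut (by linarith) (by linarith)]
      exact Real.sqrt_le_sqrt hs1
    calc 2 * B / Real.sqrt t * Real.sqrt s ≤ 2 * B / Real.sqrt t * (Real.sqrt t / B) := by gcongr
      _ = 2 := by field_simp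
  have e2 : ∑ m ∈ Finset.Ioc s T, o m ≤ RR (t + T) - RR t + (1 + Real.log B) := by
    have e5 := RR_cut hRR ht hB hst hs2
    rcases le_total s T with h | h
    · have e3 : ∑ m ∈ Finset.Ioc s T, o m ≤ RR T - RR s := by
        rw [RR_sub h]
        refine Finset.sum_le_sum fun m hm => h1 m ?_
        rw [Finset.mem_Ioc] at hm
        omega
      have e4 : RR T ≤ RR (t + T) := RR_mono hRR.1 (by omega)
      linarith
    · rw [Finset.Ioc_eq_empty (by omega), Finset.sum_empty]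
      have e4 : RR t ≤ RR (t + T) := RR_mono hRR.1 (by omega)
      linarith
  have e3 := split_le o h0 s T
  rw [icc_eq]
  linarith

/-- (2) -/
theorem core2 (hRR : S_RR) {t T N0 : ℕ} {B C0 : ℝ} (o : ℕ → ℝ) (ht : 1 ≤ t) (hB : 1 ≤ B)
    (hC0 : 1 ≤ C0) (hN : t + T ≤ N0) (h0 : ∀ m, 0 ≤ o m)
    (h3 : ∀ m : ℕ, 1 ≤ m → m ≤ N0 → rr m - 2 * C0 * (B * t) / (m : ℝ) ^ 2 ≤ o m) (htT : t ≤ T) :
    RR (t + T) - RR t - (2 * C0 + 3) * (1 + Real.log B) ≤ ∑ m ∈ Finset.Icc 1 (T / 2), o m := by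
  have ht' : (1 : ℝ) ≤ t := by exact_mod_cast ht
  have htT' : (t : ℝ) ≤ T := by exact_mod_cast htT
  have hlog : 0 ≤ Real.log B := Real.log_nonneg hB
  have hBt : 1 ≤ B * t := by nlinarith
  obtain ⟨-, -, -, -, h5, -, -⟩ := id hRR
  set a : ℕ := ⌈B * t⌉₊ with ha
  have ha1 : B * t ≤ a := Nat.le_ceil _
  have ha2 : (a : ℝ) ≤ 2 * (B * t) := by
    have := Nat.ceil_lt_add_one (show (0 : ℝ) ≤ B * t by linarith)
    linarith
  have hta : (t : ℝ) ≤ a := by nlinarith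
  have hta' : t ≤ a := by exact_mod_cast hta
  have ha3 : 1 ≤ a := le_trans ht hta'
  have ha4 : (1 : ℝ) ≤ a := by exact_mod_cast ha3
  rw [icc_eq]
  rcases lt_or_ge (T / 2) a with h | h
  · -- short blocks
    have e1 : T ≤ 2 * a := by omega
    have e1' : (T : ℝ) ≤ 2 * a := by exact_mod_cast e1
    have e2 := h5 t (t + T) ht (by omega)
    have e3 : ((t + T : ℕ) : ℝ) / t ≤ 5 * B := by
      rw [div_le_iff₀ (by linarith)]
      push_cast
      nlinarith
    have e4 : Real.log (((t + T : ℕ) : ℝ) / t) ≤ Real.log (5 * B) :=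
      Real.log_le_log (by positivity) e3
    rw [Real.log_mul (by norm_num) (by positivity)] at e4
    have e5 : Real.log 5 ≤ 4 := by
      have := Real.log_le_sub_one_of_pos (show (0 : ℝ) < 5 by norm_num)
      linarith
    have e6 : 0 ≤ ∑ m ∈ Finset.Ioc 0 (T / 2), o m := Finset.sum_nonneg fun m _ => h0 m
    have e7 : 0 ≤ (2 * C0 + 1) * Real.log B := by positivity
    nlinarith
  · -- long blocks
    have e1 : ∑ m ∈ Finset.Ioc a (T / 2), o m ≤ ∑ m ∈ Finset.Ioc 0 (T / 2), o m :=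
      Finset.sum_le_sum_of_subset_of_nonneg (Finset.Ioc_subset_Ioc_left (Nat.zero_le a))
        (fun m _ _ => h0 m)
    have e2 : ∑ m ∈ Finset.Ioc a (T / 2), (1 / (m : ℝ) ^ 2) ≤
        (fun m : ℕ => -(1 / (m : ℝ))) (T / 2) - (fun m : ℕ => -(1 / (m : ℝ))) a := by
      refine tele (fun m : ℕ => 1 / (m : ℝ) ^ 2) (fun m : ℕ => -(1 / (m : ℝ))) h
        fun m hm _ => ?_
      have hm1 : (1 : ℝ) ≤ m := by
        have : 1 ≤ m := le_trans ha3 hm
        exact_mod_cast this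
      push_cast
      have k1 : -(1 / ((m : ℝ) + 1)) - -(1 / (m : ℝ)) = 1 / (m * (m + 1)) := by
        field_simp
        ring
      rw [k1]
      apply one_div_le_one_div_of_le (by positivity)
      nlinarith
    have e2' : ∑ m ∈ Finset.Ioc a (T / 2), (1 / (m : ℝ) ^ 2) ≤ 1 / (a : ℝ) := by
      refine e2.trans ?_
      simp only
      have : (0 : ℝ) ≤ 1 / ((T / 2 : ℕ) : ℝ) := by positivity
      linarith
    have e3 : ∑ m ∈ Finset.Ioc a (T / 2), (rr m - 2 * C0 * (B * t) / (m : ℝ) ^ 2) ≤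
        ∑ m ∈ Finset.Ioc a (T / 2), o m := by
      refine Finset.sum_le_sum fun m hm => ?_
      rw [Finset.mem_Ioc] at hm
      exact h3 m (by omega) (by omega)
    have e4 : ∑ m ∈ Finset.Ioc a (T / 2), (rr m - 2 * C0 * (B * t) / (m : ℝ) ^ 2) =
        RR (T / 2) - RR a - 2 * C0 * (B * t) * ∑ m ∈ Finset.Ioc a (T / 2), (1 / (m : ℝ) ^ 2) := by
      rw [Finset.sum_sub_distrib, RR_sub h, Finset.mul_sum]
      congr 1
      refine Finset.sum_congr rfl fun m _ => ?_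
      ring
    have e5 : 2 * C0 * (B * t) * ∑ m ∈ Finset.Ioc a (T / 2), (1 / (m : ℝ) ^ 2) ≤ 2 * C0 := by
      calc 2 * C0 * (B * t) * ∑ m ∈ Finset.Ioc a (T / 2), (1 / (m : ℝ) ^ 2)
          ≤ 2 * C0 * (a : ℝ) * (1 / a) := by gcongr
        _ = 2 * C0 := by field_simp
    have e6 : RR (t + T) - RR (T / 2) ≤ 2 := by
      have k0 : 1 ≤ T / 2 := le_trans ha3 h
      have k1 := h5 (T / 2) (t + T) k0 (by omega)
      have k2 : T ≤ 3 * (T / 2) := by omega
      have k2' : (T : ℝ) ≤ 3 * ((T / 2 : ℕ) : ℝ) := by exact_mod_cast k2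
      have k0' : (1 : ℝ) ≤ ((T / 2 : ℕ) : ℝ) := by exact_mod_cast k0
      have k3 : ((t + T : ℕ) : ℝ) / ((T / 2 : ℕ) : ℝ) ≤ 6 := by
        rw [div_le_iff₀ (by linarith)]
        push_cast at k2' ⊢
        linarith
      have k4 : Real.log (((t + T : ℕ) : ℝ) / ((T / 2 : ℕ) : ℝ)) ≤ Real.log 6 := by
        apply Real.log_le_log _ k3
        have : (0 : ℝ) < ((t + T : ℕ) : ℝ) := by push_cast; linarith
        positivity
      have k5 : Real.log 6 ≤ 4 := by
        have k6 : Real.log 6 = Real.log 2 + Real.log 3 := by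
          rw [← Real.log_mul (by norm_num) (by norm_num)]; norm_num
        have k7 := Real.log_two_lt_d9
        have k8 := Real.log_le_sub_one_of_pos (show (0 : ℝ) < 3 by norm_num)
        linarith
      linarith
    have e7 : RR a - RR t ≤ 1 / 2 + 1 / 2 * Real.log B := by
      have k1 := h5 t a ht hta'
      have k3 : (a : ℝ) / t ≤ 2 * B := by
        rw [div_le_iff₀ (by linarith)]
        linarith
      have k4 : Real.log ((a : ℝ) / t) ≤ Real.log (2 * B) := Real.log_le_log (by positivity) k3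
      rw [Real.log_mul (by norm_num) (by positivity)] at k4
      have k5 : Real.log 2 ≤ 1 := by
        have := Real.log_two_lt_d9
        linarith
      linarith
    have e8 : 0 ≤ (2 * C0 + 1) * Real.log B := by positivity
    nlinarith

/-- (3) -/
theorem core3 (hRR : S_RR) {t T N0 : ℕ} {B : ℝ} (o : ℕ → ℝ) (ht : 1 ≤ t) (hB : 1 ≤ B)
    (hN : t + T ≤ N0) (h0 : ∀ m, 0 ≤ o m) (h1 : ∀ m, m ≤ N0 → o m ≤ rr m)
    (h2 : ∀ m : ℕ, 1 ≤ m → m ≤ t → o m ≤ B / Real.sqrt ((m : ℝ) * t)) :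
    ∑ m ∈ Finset.Icc 1 T, o m * hh (1 / 4) t m ≤
      9 * (Real.sqrt B + Real.log (1 + (T : ℝ) / t)) := by
  obtain ⟨s, hst, hs1, hs2⟩ := cutoff ht hB
  have ht' : (1 : ℝ) ≤ t := by exact_mod_cast ht
  have hqt : 0 < q (t : ℝ) := q_pos (by linarith)
  have hsB : 0 < Real.sqrt B := Real.sqrt_pos.2 (by linarith)
  have hsB2 : Real.sqrt B ^ 2 = B := Real.sq_sqrt (by linarith)
  have hlog : 0 ≤ Real.log (1 + (T : ℝ) / t) := Real.log_nonneg (by
    have : (0 : ℝ) ≤ (T : ℝ) / t := by positivity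
    linarith)
  have hhpos : ∀ m : ℕ, 1 ≤ hh (1 / 4) t m := fun m => le_max_left _ _
  -- the weight for small and large ages
  have hsmall : ∀ m : ℕ, 1 ≤ m → m ≤ t → hh (1 / 4) t m ≤ q t / q m := by
    intro m hm hmt
    have hm' : (1 : ℝ) ≤ m := by exact_mod_cast hm
    have hmt' : (m : ℝ) ≤ t := by exact_mod_cast hmt
    have k1 : ((t : ℝ) + 1) / ((m : ℝ) + 1) ≤ t / m := by
      rw [div_le_div_iff₀ (by linarith) (by linarith)]
      nlinarith
    unfold hh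
    rw [rpow_quarter (by positivity)]
    refine max_le ?_ ?_
    · rw [le_div_iff₀ (q_pos (by linarith)), one_mul]
      exact q_mono hmt'
    · rw [← q_div (by linarith)]
      exact q_mono k1
  have hlarge : ∀ m : ℕ, t ≤ m → hh (1 / 4) t m = 1 := by
    intro m hm
    have hm' : (t : ℝ) ≤ m := by exact_mod_cast hm
    unfold hh
    apply max_eq_left
    apply Real.rpow_le_one (by positivity) _ (by norm_num)
    rw [div_le_one (by linarith)]
    linarith
  have hf : ∀ m, 0 ≤ o m * hh (1 / 4) t m := fun m =>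
    mul_nonneg (h0 m) (le_trans zero_le_one (hhpos m))
  -- ages up to s
  have e1 : ∑ m ∈ Finset.Ioc 0 s, o m * hh (1 / 4) t m ≤ 4 * Real.sqrt B := by
    have e2 : ∑ m ∈ Finset.Ioc 0 s, o m * hh (1 / 4) t m ≤
        (fun m : ℕ => 4 * B / q t * q (m : ℝ)) s - (fun m : ℕ => 4 * B / q t * q (m : ℝ)) 0 := by
      refine tele (fun m : ℕ => o m * hh (1 / 4) t m) (fun m : ℕ => 4 * B / q t * q (m : ℝ))
        (Nat.zero_le s) fun m _ hm => ?_
      have k1 := h2 (m + 1) (by omega) (by omega)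
      have k2 := hsmall (m + 1) (by omega) (by omega)
      have hqm : 0 < q ((m : ℝ) + 1) := q_pos (by positivity)
      push_cast at k1 k2 ⊢
      rw [Real.sqrt_mul (by positivity), ← q_sq, ← q_sq] at k1
      calc o (m + 1) * hh (1 / 4) t (m + 1)
          ≤ B / (q ((m : ℝ) + 1) ^ 2 * q t ^ 2) * (q t / q ((m : ℝ) + 1)) := by
            apply mul_le_mul k1 k2 (le_trans zero_le_one (hhpos _)) (by positivity)
        _ = B / q t * (1 / q ((m : ℝ) + 1) ^ 3) := by field_simp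
        _ ≤ B / q t * (4 * (q ((m : ℝ) + 1) - q m)) := by
            have := step_q m
            gcongr
        _ = _ := by ring
    refine e2.trans ?_
    have k0 : q ((0 : ℕ) : ℝ) = 0 := by simp [q]
    simp only [k0, mul_zero, sub_zero]
    have k1 : q (s : ℝ) ≤ q t / Real.sqrt B := by
      rw [← q_cut (by linarith) (by linarith)]
      exact q_mono hs1
    calc 4 * B / q t * q s ≤ 4 * B / q t * (q t / Real.sqrt B) := by gcongr
      _ = 4 * (B / Real.sqrt B) := by field_simp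
      _ = 4 * Real.sqrt B := by rw [Real.div_sqrt]
  -- ages between s and t
  have e2 : ∑ m ∈ Finset.Ioc s t, o m * hh (1 / 4) t m ≤
      ∑ m ∈ Finset.Ioc s t, o m * hh (1 / 4) t m := le_rfl
  have hbound : ∀ m : ℕ, s < m → m ≤ t → m ≤ N0 → o m * hh (1 / 4) t m ≤
      q t / 2 * (1 / q (m : ℝ) ^ 5) := by
    intro m hm1 hm2 hm3
    have hm' : (1 : ℝ) ≤ m := by
      have : 1 ≤ m := by omega
      exact_mod_cast this
    have k1 : o m ≤ 1 / (2 * m) := by
      refine (h1 m hm3).trans ((hRR.2.1 m).trans ?_)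
      apply one_div_le_one_div_of_le (by positivity)
      linarith
    have k2 := hsmall m (by omega) hm2
    have hqm : 0 < q (m : ℝ) := q_pos (by linarith)
    calc o m * hh (1 / 4) t m ≤ 1 / (2 * m) * (q t / q m) :=
          mul_le_mul k1 k2 (le_trans zero_le_one (hhpos _)) (by positivity)
      _ = 1 / (2 * q (m : ℝ) ^ 4) * (q t / q m) := by rw [q_four (by linarith)]
      _ = q t / 2 * (1 / q (m : ℝ) ^ 5) := by field_simp
  have hqs : q t / Real.sqrt B ≤ q ((s : ℝ) + 1) := by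
    rw [← q_cut (by linarith) (by linarith)]
    exact q_mono hs2.le
  have e3 : ∀ M : ℕ, M ≤ t → M ≤ T → ∑ m ∈ Finset.Ioc s M, o m * hh (1 / 4) t m ≤ 5 * Real.sqrt B := by
    intro M hM1 hM2
    rcases le_total s M with h | h
    · have k1 : ∑ m ∈ Finset.Ioc s M, o m * hh (1 / 4) t m ≤
          (fun m : ℕ => -(5 * q t / q ((m : ℝ) + 1))) M -
          (fun m : ℕ => -(5 * q t / q ((m : ℝ) + 1))) s := by
        refine tele (fun m : ℕ => o m * hh (1 / 4) t m)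
          (fun m : ℕ => -(5 * q t / q ((m : ℝ) + 1))) h fun m hm hm2 => ?_
        refine (hbound (m + 1) (by omega) (by omega) (by omega)).trans ?_
        have k2 := step_q5 (m := m + 1) (by omega)
        push_cast at k2 ⊢
        calc q t / 2 * (1 / q ((m : ℝ) + 1) ^ 5) ≤
            q t / 2 * (10 * (1 / q ((m : ℝ) + 1) - 1 / q ((m : ℝ) + 1 + 1))) := by gcongr
          _ = _ := by ring
      refine k1.trans ?_
      have hqM : 0 < q ((M : ℝ) + 1) := q_pos (by positivity)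
      have hqs0 : 0 < q ((s : ℝ) + 1) := q_pos (by positivity)
      have k3 : 0 ≤ 5 * q t / q ((M : ℝ) + 1) := by positivity
      have k4 : 5 * q t / q ((s : ℝ) + 1) ≤ 5 * Real.sqrt B := by
        rw [div_le_iff₀ hqs0]
        rw [div_le_iff₀ hsB] at hqs
        nlinarith
      simp only
      linarith
    · rw [Finset.Ioc_eq_empty (by omega), Finset.sum_empty]
      positivity
  -- ages larger than t
  have e4 : ∑ m ∈ Finset.Ioc t T, o m * hh (1 / 4) t m ≤ Real.log (1 + (T : ℝ) / t) := by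
    rcases le_total t T with h | h
    · have k1 : ∑ m ∈ Finset.Ioc t T, o m * hh (1 / 4) t m ≤ RR T - RR t := by
        rw [RR_sub h]
        refine Finset.sum_le_sum fun m hm => ?_
        rw [Finset.mem_Ioc] at hm
        rw [hlarge m (by omega), mul_one]
        exact h1 m (by omega)
      have k2 := hRR.2.2.2.2.1 t T ht h
      have h' : (t : ℝ) ≤ T := by exact_mod_cast h
      have k3 : Real.log ((T : ℝ) / t) ≤ Real.log (1 + (T : ℝ) / t) :=
        Real.log_le_log (div_pos (by linarith) (by linarith)) (by linarith)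
      have k4 : 0 ≤ Real.log (1 + (T : ℝ) / t) := hlog
      linarith
    · rw [Finset.Ioc_eq_empty (by omega), Finset.sum_empty]
      exact hlog
  rw [icc_eq]
  have k1 := split_le _ hf s T
  rcases le_total t T with h | h
  · have k2 : ∑ m ∈ Finset.Ioc s T, o m * hh (1 / 4) t m =
        ∑ m ∈ Finset.Ioc s t, o m * hh (1 / 4) t m + ∑ m ∈ Finset.Ioc t T, o m * hh (1 / 4) t m :=
      (Finset.sum_Ioc_consecutive _ hst h).symm
    have k3 := e3 t le_rfl h
    linarith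
  · have k3 := e3 T h le_rfl
    linarith

/-- (4) -/
theorem core4 (hRR : S_RR) {t T N0 : ℕ} {B : ℝ} (o : ℕ → ℝ) (ht : 1 ≤ t) (hB : 1 ≤ B)
    (hN : t + T ≤ N0) (h0 : ∀ m, 0 ≤ o m) (h1 : ∀ m, m ≤ N0 → o m ≤ rr m)
    (h2 : ∀ m : ℕ, 1 ≤ m → m ≤ t → o m ≤ B / Real.sqrt ((m : ℝ) * t)) :
    ∑ m ∈ Finset.Icc 1 T, o m / m ≤ 5 * B / Real.sqrt t := by
  have ht' : (1 : ℝ) ≤ t := by exact_mod_cast ht
  have hts : 0 < Real.sqrt (t : ℝ) := Real.sqrt_pos.2 (by linarith)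
  have hts2 : Real.sqrt (t : ℝ) ^ 2 = t := Real.sq_sqrt (by linarith)
  have hts1 : 1 ≤ Real.sqrt (t : ℝ) := Real.one_le_sqrt.2 ht'
  have hf : ∀ m : ℕ, 0 ≤ o m / m := fun m => div_nonneg (h0 m) (Nat.cast_nonneg m)
  have e1 : ∑ m ∈ Finset.Ioc 0 t, o m / m ≤ 4 * B / Real.sqrt t := by
    have e2 : ∑ m ∈ Finset.Ioc 0 t, o m / m ≤
        (fun m : ℕ => -(4 * B / Real.sqrt t * (1 / Real.sqrt ((m : ℝ) + 1)))) t -
        (fun m : ℕ => -(4 * B / Real.sqrt t * (1 / Real.sqrt ((m : ℝ) + 1)))) 0 := by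
      refine tele (fun m : ℕ => o m / m)
        (fun m : ℕ => -(4 * B / Real.sqrt t * (1 / Real.sqrt ((m : ℝ) + 1)))) (Nat.zero_le t)
        fun m _ hm => ?_
      have k1 := h2 (m + 1) (by omega) (by omega)
      have k2 := step_three_half (m := m + 1) (by omega)
      push_cast at k1 k2 ⊢
      rw [Real.sqrt_mul (by positivity)] at k1
      have hsm : 0 < Real.sqrt ((m : ℝ) + 1) := Real.sqrt_pos.2 (by positivity)
      calc o (m + 1) / ((m : ℝ) + 1) ≤ B / (Real.sqrt ((m : ℝ) + 1) * Real.sqrt t) / ((m : ℝ) + 1) := by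
            gcongr
        _ = B / Real.sqrt t * (1 / (Real.sqrt ((m : ℝ) + 1) * ((m : ℝ) + 1))) := by
            field_simp
        _ ≤ B / Real.sqrt t *
            (4 * (1 / Real.sqrt ((m : ℝ) + 1) - 1 / Real.sqrt ((m : ℝ) + 1 + 1))) := by gcongr
        _ = _ := by ring
    refine e2.trans ?_
    have k1 : 0 ≤ 4 * B / Real.sqrt t * (1 / Real.sqrt ((t : ℝ) + 1)) := by positivity
    simp only [Nat.cast_zero, zero_add, Real.sqrt_one, div_one, mul_one]
    linarith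
  have e2 : ∑ m ∈ Finset.Ioc t T, o m / m ≤ B / Real.sqrt t := by
    rcases le_total t T with h | h
    · have k1 : ∑ m ∈ Finset.Ioc t T, o m / m ≤
          (fun m : ℕ => -(1 / (m : ℝ))) T - (fun m : ℕ => -(1 / (m : ℝ))) t := by
        refine tele (fun m : ℕ => o m / m) (fun m : ℕ => -(1 / (m : ℝ))) h fun m hm hm2 => ?_
        have hm1 : (1 : ℝ) ≤ m := by
          have : 1 ≤ m := le_trans ht hm
          exact_mod_cast this
        have k2 : o (m + 1) ≤ 1 / ((m : ℝ) + 1) := by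
          refine (h1 (m + 1) (by omega)).trans ((hRR.2.1 (m + 1)).trans ?_)
          push_cast
          apply one_div_le_one_div_of_le (by positivity)
          linarith
        push_cast
        have k3 : -(1 / ((m : ℝ) + 1)) - -(1 / (m : ℝ)) = 1 / (m * (m + 1)) := by
          field_simp
          ring
        rw [k3]
        calc o (m + 1) / ((m : ℝ) + 1) ≤ 1 / ((m : ℝ) + 1) / ((m : ℝ) + 1) := by gcongr
          _ = 1 / (((m : ℝ) + 1) * ((m : ℝ) + 1)) := by field_simp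
          _ ≤ 1 / (m * (m + 1)) := by
            apply one_div_le_one_div_of_le (by positivity)
            nlinarith
      refine k1.trans ?_
      have k4 : (0 : ℝ) ≤ 1 / (T : ℝ) := by positivity
      have k5 : 1 / (t : ℝ) ≤ B / Real.sqrt t := by
        rw [div_le_div_iff₀ (by linarith) hts]
        nlinarith
      simp only
      linarith
    · rw [Finset.Ioc_eq_empty (by omega), Finset.sum_empty]
      positivity
  rw [icc_eq]
  have k1 := split_le (fun m : ℕ => o m / m) hf t T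
  have k2 : 5 * B / Real.sqrt t = 4 * B / Real.sqrt t + B / Real.sqrt t := by ring
  rw [k2]
  linarith

theorem t_GS : S_RR → S_OV → S_GS := by
  intro hRR hOV C0 hC0
  refine ⟨2 * C0 + 9, by linarith, ?_⟩
  intro V _ _ N0 W w t T B ht hB hN hG
  obtain ⟨-, -, -, -, -, -, hsum, hlow, -⟩ := hOV V C0 N0 W w hG.nonneg
  obtain ⟨h1, -, -⟩ := hsum hG.sum
  have h3 := hlow t B hG
  have h0 : ∀ m, 0 ≤ ov W w m := fun m => Finset.sum_nonneg fun z _ => sq_nonneg _
  have h2 : ∀ m : ℕ, 1 ≤ m → m ≤ t → ov W w m ≤ B / Real.sqrt ((m : ℝ) * t) := hG.ov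
  have hlog : 0 ≤ Real.log B := Real.log_nonneg hB
  have ht' : (1 : ℝ) ≤ t := by exact_mod_cast ht
  have hlog2 : 0 ≤ Real.log (1 + (T : ℝ) / t) := Real.log_nonneg (by
    have : (0 : ℝ) ≤ (T : ℝ) / t := by positivity
    linarith)
  refine ⟨?_, ?_, ?_, ?_⟩
  · have := core1 hRR (ov W w) ht hB hN h0 h1 h2
    nlinarith
  · intro htT
    have := core2 hRR (ov W w) ht hB hC0 hN h0 h3 htT
    nlinarith
  · have := core3 hRR (ov W w) ht hB hN h0 h1 h2
    have h4 := Real.sqrt_nonneg B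
    nlinarith
  · have := core4 hRR (ov W w) ht hB hN h0 h1 h2
    refine this.trans ?_
    have hts : 0 < Real.sqrt (t : ℝ) := Real.sqrt_pos.2 (by linarith)
    gcongr
    linarith

end Pool.Agent.H349.QC
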