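import Pool.Agent.H815.QC.Stm

/-!
# Project QC: B3, a form of `cent_Mn`
-/

set_option autoImplicit false
set_option linter.all false

namespace Pool.Agent.H349.QC

open Pool.Agent.Y110.FJ Pool.Agent.T2H65.GP Pool.Agent.H815.QC

/-- The product of two subgroups whose elements commute. -/
def prd {G : Type} [Group G] (H K : Subgroup G) (h : ∀ a ∈ H, ∀ b ∈ K, a * b = b * a) : Subgroup G where
  carrier := {y | ∃ a ∈ H, ∃ b ∈ K, y = a * b}
  one_mem' := ⟨1, one_mem _, 1, one_mem _, (mul_one 1).symm⟩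
  mul_mem' := by
    rintro _ _ ⟨a, ha, b, hb, rfl⟩ ⟨a', ha', b', hb', rfl⟩
    refine ⟨a * a', mul_mem ha ha', b * b', mul_mem hb hb', ?_⟩
    rw [mul_assoc, ← mul_assoc b a' b', ← h a' ha' b hb]
    simp only [mul_assoc]
  inv_mem' := by
    rintro _ ⟨a, ha, b, hb, rfl⟩
    refine ⟨a⁻¹, inv_mem ha, b⁻¹, inv_mem hb, ?_⟩
    rw [mul_inv_rev, h _ (inv_mem ha) _ (inv_mem hb)]

theorem B3_proof : Pool.Agent.H815.QC.S_B3 := by
  intro V _ Λ B _ T x hx y hy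
  have h1 := cent_Mn _ V Λ B le_rfl T x hx y hy
  have hcomm : ∀ a ∈ Subgroup.centralizer {x} ⊓ std Λ B T, ∀ b ∈ std Λ B (pp Λ T), a * b = b * a := by
    intro a ha b hb
    exact std_comm Λ B (fun t s ht hs => (hs t ht).symm) ha.2 hb
  have h2 : (Subgroup.centralizer {x} ⊓ std Λ B T) ⊔
      (⨆ v : {v // ∀ t, T t → Λ.Adj v t}, vg Λ B v.1) ≤
      prd (Subgroup.centralizer {x} ⊓ std Λ B T) (std Λ B (pp Λ T)) hcomm := by
    refine sup_le ?_ (iSup_le ?_)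
    · intro a ha
      exact ⟨a, ha, 1, one_mem _, (mul_one a).symm⟩
    · intro v b hb
      exact ⟨1, one_mem _, b, vg_le_std Λ B v.2 hb, (one_mul b).symm⟩
  obtain ⟨y1, hy1, y2, hy2, e⟩ := h2 h1
  exact ⟨y1, hy1.2, y2, hy2, e, Subgroup.mem_centralizer_singleton_iff.1 hy1.1⟩

end Pool.Agent.H349.QC
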