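import Pool.Agent.H815.QC.Stm3

/-!
# Project QC, L1: pieces of the large factor, first direction
-/

set_option autoImplicit false

namespace Pool.Agent.H349.QC

open Pool.Agent.Y110.FJ Pool.Agent.T2H65.GP Pool.Agent.H815.QC

theorem gp_mem {V : Type} (Λ : SimpleGraph V) (w : V) (m : ℤ) (T : V → Prop) (h : T w) :
    gp Λ w m ∈ std Λ (B2 V) T :=
  vg_le_std Λ (B2 V) (T := T) h ⟨Multiplicative.ofAdd m, rfl⟩

theorem grp_id1 {G : Type} [Group G] (a y : G) : (1 : G)⁻¹ * a * 1 = y * (y⁻¹ * a * y) * y⁻¹ := by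
  group

theorem grp_id2 {G : Type} [Group G] (p g : G) : p⁻¹ * (p * g * p⁻¹) * p = g := by
  group

theorem grp_id3 {G : Type} [Group G] (p g : G) (h : p * g * p⁻¹ = 1) : g = 1 := by
  have h1 : g = p⁻¹ * (p * g * p⁻¹) * p := (grp_id2 p g).symm
  rw [h1, h]
  group

theorem grp_id4 {G : Type} [Group G] (g : G) (h : g = 1) : (1 : G)⁻¹ * g * 1 = 1 := by
  rw [h]
  group

theorem L1_proof (hRC : S_RC) (hB7 : S_B7) (hP6 : S_P6) (hR3 : S_R3) (hR4 : S_R4) (hR7 : S_R7) (hR8 : S_R8)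
    (hR9 : S_R9) : Pool.Agent.H815.QC.S_L1 := by
  intro N _ V _ Λ α β S hB v' y' hv' hy'
  have htf : TFr N := hB7 V Λ N β hB.vb.1
  obtain ⟨S', b, hCl, hHb, hKb⟩ := hRC N V Λ α β hB.va hB.vb v' y'
  have h1 : Hs α v' y' ≤ Ks α 0 1 := by
    intro n hn
    have hn1 : y'⁻¹ * α n * y' ∈ std Γ1 B1 (cl v') := mem_pb.1 hn
    refine mem_pb.2 ?_
    have hcl : ∀ a, cl v' a → nb 0 a := by
      intro a ha
      have ha' : a.1 = v' := ha
      show a.1 = 0 + 1 ∨ 0 = a.1 + 1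
      rw [ha']
      exact hv'
    have hn2 : y'⁻¹ * α n * y' ∈ std Γ1 B1 (nb 0) := std_mono Γ1 B1 hcl hn1
    have hn3 : y' * (y'⁻¹ * α n * y') * y'⁻¹ ∈ std Γ1 B1 (nb 0) := mul_mem (mul_mem hy' hn2) (inv_mem hy')
    rw [grp_id1 (α n) y']
    exact hn3
  have h2 : As Λ β b S' ≤ As Λ β 1 (pp Λ S) := by
    rw [← hHb, ← hB.hK]
    exact h1
  obtain ⟨hsub, p1, hp1, p2, hp2, hbe⟩ := hR3 V Λ N β hB.vb 1 (pp Λ S) b S' h2
  have hb' : b = p1 * p2 := by rw [hbe, one_mul]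
  have h7a : As Λ β (p1 * p2) S' = As Λ β p1 S' := (hR7 V Λ N β hB.vb.1 p1 S').2.2 p2 hp2
  have hmon : ∀ v, (S' v ∨ pp Λ S' v) → (pp Λ S' v ∨ pp Λ (pp Λ S') v) := by
    intro v hv
    rcases hv with hv | hv
    · exact Or.inr fun s hs => (hs v hv).symm
    · exact Or.inl hv
  have hp2' : p2 ∈ std Λ (B2 V) (fun v => pp Λ S' v ∨ pp Λ (pp Λ S') v) := std_mono Λ (B2 V) hmon hp2
  have h7b : As Λ β (p1 * p2) (pp Λ S') = As Λ β p1 (pp Λ S') :=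
    (hR7 V Λ N β hB.vb.1 p1 (pp Λ S')).2.2 p2 hp2'
  have hH' : Hs α v' y' = As Λ β p1 S' := by rw [hHb, hb', h7a]
  have hK' : Ks α v' y' = As Λ β p1 (pp Λ S') := by rw [hKb, hb', h7b]
  refine ⟨p1, hp1, S', hCl, hsub, hH', hK', ?_⟩
  intro w hw
  obtain ⟨m, hm, n, hn⟩ := hR4 V Λ N β hB.vb p1 w
  have hnA : n ∈ As Λ β p1 S' := by
    refine mem_pb.2 ?_
    rw [hn, grp_id2 p1 (gp Λ w m)]
    exact gp_mem Λ w m S' hw
  have hnH : n ∈ Hs α v' y' := by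
    rw [hH']
    exact hnA
  have hn1 : n ≠ 1 := by
    intro h
    have hg : gp Λ w m = 1 := by
      refine grp_id3 p1 (gp Λ w m) ?_
      rw [← hn, h, map_one]
    have h9 : (1 : P2 Λ)⁻¹ * gp Λ w m * 1 ∈ std Λ (B2 V) (fun _ => False) := by
      rw [grp_id4 (gp Λ w m) hg]
      exact one_mem _
    exact (hR9 V Λ w m (fun _ => False) 1 hm.ne' h9).1
  have h6 : ∀ a a', a * n = n * a → a' * n = n * a' → a * a' * a⁻¹ * a'⁻¹ ∈ Ks α v' y' :=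
    hP6 N α hB.va htf v' y' n hnH hn1
  have key : ∀ u, Λ.Adj w u → pp Λ S' u := by
    refine hR8 V Λ N β hB.vb w m p1 p1 n (pp Λ S') hm.ne' hn ?_ ?_ ?_
    · intro u hu
      exact (hu w hw).symm
    · intro s t hs ht
      exact hCl.ind s t (hCl.clo s hs) (hCl.clo t ht)
    · intro a a' ha ha'
      rw [← hK']
      exact h6 a a' ha ha'
  intro u
  exact ⟨key u, fun hu => (hu w hw).symm⟩

end Pool.Agent.H349.QC
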